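import Pool.Agent.P.MP_029dcd_co.F.A.Dn

/-! Multidimensional density Hales-Jewett, uniformity of slices, tiling of insensitive sets. -/

set_option autoImplicit false

namespace ECub.A

theorem mdhj {α : Type} [Finite α] [Nonempty α] (H : DHJ α) (d : Type) [Finite d] :
    ∀ δ : ℝ, 0 < δ → ∃ (ι : Type) (_ : Finite ι), ∀ A : (ι → α) → Prop,
      δ ≤ (av fun x => ind (A x)) → ∃ φ : (d → α) → ι → α, IsSub φ ∧ ∀ u, A (φ u) := by
  induction d using Finite.induction_empty_option with
  | @of_equiv d d' e ih =>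
    intro δ hδ
    obtain ⟨ι, _, h⟩ := ih δ hδ
    refine ⟨ι, inferInstance, fun A hA => ?_⟩
    obtain ⟨φ, h1, h2⟩ := h A hA
    exact ⟨fun x => φ fun j => x (e j), h1.comp (isSubP_surj _ e.surjective), fun u => h2 _⟩
  | h_empty =>
    intro δ hδ
    refine ⟨PEmpty, inferInstance, fun A hA => ?_⟩
    obtain ⟨x, hx⟩ := exists_of_av_pos (hδ.trans_le hA)
    exact ⟨fun x j => x j, isSubP_surj _ Function.surjective_id,
      fun u => Subsingleton.elim x u ▸ hx⟩
  | @h_option d _ ih =>
    intro δ hδ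
    obtain ⟨M, _, hM⟩ := H (δ / 2) (half_pos hδ)
    obtain ⟨ι, _, h⟩ := ih (δ / 2 / Nat.card (M → Option α)) (div_pos (half_pos hδ) (card_pos' _))
    refine ⟨M ⊕ ι, inferInstance, fun A hA => ?_⟩
    rw [av_sum, av_comm] at hA
    have h1 := markov (f := fun y : ι → α => av fun x : M → α => ind (A (Sum.elim x y)))
      (fun y => av_le fun x => ind_le_one _) (half_pos hδ).le
    obtain ⟨l, hl⟩ := pigeon
      (p := fun y : ι → α => δ / 2 ≤ av fun x : M → α => ind (A (Sum.elim x y)))
      (q := fun (l : M → Option α) (y : ι → α) =>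
        (∃ j, l j = none) ∧ ∀ a, A (Sum.elim (ev l a) y)) fun y hy => hM _ hy
    obtain ⟨φ, h2, h3⟩ := h _ ((div_le_div_of_nonneg_right (by linarith) (card_pos' _).le).trans hl)
    exact ⟨_, IsSubP.cons (h3 (Classical.arbitrary _)).1 (fun _ _ _ => trivial) h2,
      fun u => (h3 _).2 _⟩

theorem unif_aux (β M : Type) [Finite β] [Nonempty β] [Finite M] {ε : ℝ} (hε : 0 < ε) (t : ℕ) :
    ∃ (ι : Type) (_ : Finite ι), ∀ f : (ι → β) → ℝ, (∀ x, f x ≤ 1) →
      1 - t * (ε / Nat.card (M → β)) < av f →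
      ∃ (κ : Type) (_ : Finite κ) (φ : (M ⊕ κ → β) → ι → β), IsSub φ ∧
        ∀ x, av f - ε ≤ av fun y => f (φ (Sum.elim x y)) := by
  induction t with
  | zero =>
    refine ⟨PEmpty, inferInstance, fun f hf h => ?_⟩
    have := av_le hf
    simp only [Nat.cast_zero, zero_mul, sub_zero] at h
    linarith
  | succ t ih =>
    obtain ⟨ι, _, h⟩ := ih
    refine ⟨M ⊕ ι, inferInstance, fun f hf ht => ?_⟩
    by_cases hu : ∀ x : M → β, av f - ε ≤ av fun y : ι → β => f (Sum.elim x y)
    · exact ⟨ι, inferInstance, fun x j => x j, isSubP_surj _ Function.surjective_id, hu⟩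
    obtain ⟨x₀, h₀⟩ := not_forall.1 hu
    have hc := card_pos' (M → β)
    have hρ : 0 < ε / Nat.card (M → β) := div_pos hε hc
    have h1 : av f + ε / Nat.card (M → β) + ε / Nat.card (M → β) / Nat.card (M → β) ≤
        av fun x : M → β => (av fun y : ι → β => f (Sum.elim x y)) +
          (ε + ε / Nat.card (M → β)) * ind (x = x₀) := by
      rw [av_add, av_mul, av_single, ← av_sum]
      apply le_of_eq
      ring
    obtain ⟨x₁, h₁⟩ : ∃ x₁ : M → β, av f + ε / Nat.card (M → β) ≤
        av fun y : ι → β => f (Sum.elim x₁ y) := by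
      by_contra hn
      have h2 : (av fun x : M → β => (av fun y : ι → β => f (Sum.elim x y)) +
          (ε + ε / Nat.card (M → β)) * ind (x = x₀)) ≤ av f + ε / Nat.card (M → β) := by
        refine av_le fun x => ?_
        by_cases hx : x = x₀
        · rw [ind_pos hx, hx]; linarith [not_le.1 h₀]
        · rw [ind_neg hx]; linarith [not_le.1 (not_exists.1 hn x)]
      linarith [div_pos hρ hc]
    obtain ⟨κ, _, φ, h2, h3⟩ := h (fun y => f (Sum.elim x₁ y)) (fun y => hf _) (by
      push_cast at ht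
      linarith)
    exact ⟨κ, inferInstance, fun z => Sum.elim x₁ (φ z), (isSub_right x₁).comp h2,
      fun x => le_trans (by linarith) (h3 x)⟩

theorem unif (β M : Type) [Finite β] [Nonempty β] [Finite M] {ε : ℝ} (hε : 0 < ε) :
    ∃ (ι : Type) (_ : Finite ι), ∀ f : (ι → β) → ℝ, (∀ x, 0 ≤ f x) → (∀ x, f x ≤ 1) →
      ∃ (κ : Type) (_ : Finite κ) (φ : (M ⊕ κ → β) → ι → β), IsSub φ ∧
        ∀ x, av f - ε ≤ av fun y => f (φ (Sum.elim x y)) := by
  have hρ : 0 < ε / Nat.card (M → β) := div_pos hε (card_pos' _)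
  obtain ⟨t, ht⟩ := exists_nat_gt (1 / (ε / Nat.card (M → β)))
  obtain ⟨ι, _, h⟩ := unif_aux β M hε t
  refine ⟨ι, inferInstance, fun f h0 h1 => h f h1 ?_⟩
  rw [div_lt_iff₀ hρ] at ht
  linarith [le_av h0]

theorem mdhj_star {α : Type} [Finite α] [Nonempty α] (H : DHJ α) (d : Type) [Finite d] {δ : ℝ}
    (hδ : 0 < δ) : ∃ (M : Type) (_ : Finite M), ∀ A : (M → Option α) → Prop,
      δ ≤ (av fun x => ind (A x)) →
      ∃ φ : (d → Option α) → M → Option α, IsSub φ ∧ ∀ u : d → α, A (φ fun e => some (u e)) := by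
  obtain ⟨M₀, _, h₀⟩ := mdhj H d (δ / 2) (half_pos hδ)
  obtain ⟨M, _, h₁⟩ := unif (Option α) M₀ (half_pos hδ)
  refine ⟨M, inferInstance, fun A hA => ?_⟩
  obtain ⟨κ, _, φ, h1, h2⟩ := h₁ (fun x => ind (A x)) (fun _ => ind_nonneg _) fun _ => ind_le_one _
  have h3 : δ / 2 ≤ av fun u : M₀ → α => av fun y : κ → Option α =>
      ind (A (φ (Sum.elim (fun j => some (u j)) y))) :=
    le_av fun u => le_trans (by linarith) (h2 _)
  rw [av_comm] at h3
  obtain ⟨y, hy⟩ := exists_le_of_av h3
  obtain ⟨φ₀, h4, h5⟩ := h₀ _ hy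
  obtain ⟨ψ, h6, -, h7⟩ := h4.lift
  refine ⟨fun x => φ (Sum.elim (ψ x) y), h1.comp ((isSub_left y).comp h6.isSub), fun u => ?_⟩
  simp only [h7]
  exact h5 u

theorem tile_aux {α : Type} [Finite α] [Nonempty α] (H : DHJ α) (d : Type) [Finite d] {τ : ℝ}
    (hτ : 0 < τ) : ∃ Θ : ℝ, 0 < Θ ∧ ∀ t : ℕ, ∃ (ι : Type) (_ : Finite ι), ∀ (i : α) (Y : Type)
      [Finite Y] [Nonempty Y] (D : (ι → Option α) → Y → Prop) (w : (ι → Option α) → Y → ℝ),
      (∀ y, Ins i fun x => D x y) → (∀ x y, w x y ≤ 1) →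
      (∀ y (φ : (d → Option α) → ι → Option α), IsSub φ → (∀ u, D (φ u) y) →
        (av fun u => w (φ u) y) ≤ 0) →
      (av fun y => av fun x => ind (D x y)) ≤ t * Θ →
      (av fun y => av fun x => ind (D x y) * w x y) ≤ τ := by
  obtain ⟨M, _, hM⟩ := mdhj_star H d (half_pos hτ)
  have c1 := card_pos' ((d → Option α) → M → Option α)
  have c2 := card_pos' (M → Option α)
  refine ⟨τ / 2 / Nat.card ((d → Option α) → M → Option α) * (1 / Nat.card (M → Option α)),
    by positivity, fun t => ?_⟩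
  have triv : ∀ {X Y : Type} [Finite X] [Finite Y] {D : X → Y → Prop} {w : X → Y → ℝ},
      (∀ x y, w x y ≤ 1) → (av fun y => av fun x => ind (D x y) * w x y) ≤
        av fun y => av fun x => ind (D x y) := fun hw =>
    av_mono fun y => av_mono fun x => mul_le_of_le_one_right (ind_nonneg _) (hw x y)
  induction t with
  | zero =>
    refine ⟨PEmpty, inferInstance, fun i Y _ _ D w _ hw _ h => ?_⟩
    have := triv (D := D) hw
    simp only [Nat.cast_zero, zero_mul] at h
    linarith
  | succ t ih =>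
    obtain ⟨ι, _, h⟩ := ih
    refine ⟨ι ⊕ M, inferInstance, fun i Y _ _ D w hD hw hφ ht => ?_⟩
    rcases le_total (av fun y => av fun x => ind (D x y)) τ with hle | hle
    · exact (triv hw).trans hle
    have sp : ∀ g : (ι ⊕ M → Option α) → Y → ℝ, (av fun y => av fun x => g x y) =
        av fun p : Y × (ι → Option α) => av fun z : M → Option α => g (Sum.elim p.2 z) p.1 := by
      intro g
      rw [av_prod]
      exact congrArg av (funext fun y => av_sum _)
    have sp' : ∀ g : (ι → Option α) → (M → Option α) → Y → ℝ,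
        (av fun q : Y × (M → Option α) => av fun x : ι → Option α => g x q.2 q.1) =
        av fun p : Y × (ι → Option α) => av fun z : M → Option α => g p.2 z p.1 := by
      intro g
      rw [av_prod, av_prod]
      exact congrArg av (funext fun y => av_comm _)
    rw [sp fun x y => ind (D x y)] at hle ht
    rw [sp fun x y => ind (D x y) * w x y]
    have h1 := markov (f := fun p : Y × (ι → Option α) => av fun z : M → Option α =>
      ind (D (Sum.elim p.2 z) p.1)) (fun y => av_le fun x => ind_le_one _) (half_pos hτ).le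
    obtain ⟨φ, h2⟩ := pigeon (p := fun p : Y × (ι → Option α) => τ / 2 ≤
        av fun z : M → Option α => ind (D (Sum.elim p.2 z) p.1))
        (q := fun (φ : (d → Option α) → M → Option α)
        (p : Y × (ι → Option α)) => IsSub φ ∧ ∀ u, D (Sum.elim p.2 (φ u)) p.1) fun p hp => by
      obtain ⟨φ, h2, h3⟩ := hM _ hp
      exact ⟨φ, h2, fun u => ((hD p.1).comp ((isSub_right p.2).comp h2)) (fun e => some (ev u i e))
        u rfl (h3 _)⟩
    have h3 := (div_le_div_of_nonneg_right
      (show τ / 2 ≤ _ from le_trans (by linarith) h1) c1.le).trans h2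
    obtain ⟨_, hs, -⟩ := exists_of_av_pos ((div_pos (half_pos hτ) c1).trans_le h3)
    simp only [hs, true_and] at h3
    set S : Y × (ι → Option α) → Prop := fun p => ∀ u, D (Sum.elim p.2 (φ u)) p.1 with hS
    have key : ∀ (p : Y × (ι → Option α)) (z : M → Option α), ind (D (Sum.elim p.2 z) p.1) =
        ind (D (Sum.elim p.2 z) p.1 ∧ ¬ (S p ∧ z ∈ Set.range φ)) +
          ind (S p) * ind (z ∈ Set.range φ) := by
      intro p z
      rw [← ind_and]
      by_cases h : S p ∧ z ∈ Set.range φ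
      · have hd : D (Sum.elim p.2 z) p.1 := by
          obtain ⟨h1, u, rfl⟩ := h
          exact h1 u
        rw [ind_pos hd, ind_pos h, ind_neg fun h' => h'.2 h, zero_add]
      · rw [ind_neg h, add_zero, ind_and, ind_pos h, mul_one]
    have h4 := h i (Y × (M → Option α))
      (fun x q => D (Sum.elim x q.2) q.1 ∧ ¬ (S (q.1, x) ∧ q.2 ∈ Set.range φ))
      (fun x q => w (Sum.elim x q.2) q.1)
      (fun q x x' hx hh => ⟨(hD q.1).comp (isSub_left q.2) x x' hx hh.1, fun h' => hh.2
        ⟨fun u => (hD q.1).comp (isSub_left (φ u)) x' x hx.symm (h'.1 u), h'.2⟩⟩)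
      (fun x q => hw _ _)
      (fun q ψ hψ hh => hφ q.1 _ ((isSub_left q.2).comp hψ) fun u => (hh u).1) (by
        rw [sp' fun x z y => ind (D (Sum.elim x z) y ∧ ¬ (S (y, x) ∧ z ∈ Set.range φ))]
        have h5 : 1 / (Nat.card (M → Option α) : ℝ) ≤ av fun z => ind (z ∈ Set.range φ) := by
          rw [← av_single (φ fun _ => none)]
          exact av_mono fun z => ind_mono fun hz => ⟨_, hz.symm⟩
        simp only [key, av_add, av_mul] at ht
        have h6 : (av fun p => ind (S p)) * (1 / (Nat.card (M → Option α) : ℝ)) ≤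
            av fun p => ind (S p) * av fun z => ind (z ∈ Set.range φ) := by
          rw [mul_comm, ← av_mul]
          exact av_mono fun p => by
            rw [mul_comm]; exact mul_le_mul_of_nonneg_left h5 (ind_nonneg _)
        have h7 := mul_le_mul_of_nonneg_right h3 (one_div_pos.2 c2).le
        push_cast at ht
        linarith)
    rw [sp' fun x z y => ind (D (Sum.elim x z) y ∧ ¬ (S (y, x) ∧ z ∈ Set.range φ)) *
      w (Sum.elim x z) y] at h4
    have h8 : (av fun p : Y × (ι → Option α) => ind (S p) * av fun z : M → Option α =>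
        ind (z ∈ Set.range φ) * w (Sum.elim p.2 z) p.1) ≤ 0 := by
      refine av_le fun p => ?_
      by_cases hp : S p
      · exact mul_nonpos_of_nonneg_of_nonpos (ind_nonneg _) (av_range_nonpos hs.injective
          (hφ p.1 _ ((isSub_right p.2).comp hs) hp))
      · rw [ind_neg hp, zero_mul]
    simp only [key, add_mul, mul_assoc, av_add, av_mul]
    linarith

theorem tile_one {α : Type} [Finite α] [Nonempty α] (H : DHJ α) (d : Type) [Finite d] {τ : ℝ}
    (hτ : 0 < τ) : ∃ (ι : Type) (_ : Finite ι), ∀ (i : α) (D : (ι → Option α) → Prop)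
      (w : (ι → Option α) → ℝ), Ins i D → (∀ x, w x ≤ 1) →
      (∀ φ : (d → Option α) → ι → Option α, IsSub φ → (∀ u, D (φ u)) →
        (av fun u => w (φ u)) ≤ 0) → (av fun x => ind (D x) * w x) ≤ τ := by
  obtain ⟨Θ, hΘ, h⟩ := tile_aux H d hτ
  obtain ⟨t, ht⟩ := exists_nat_ge (1 / Θ)
  obtain ⟨ι, _, h⟩ := h t
  refine ⟨ι, inferInstance, fun i D w hD hw hφ => ?_⟩
  have := h i Unit (fun x _ => D x) (fun x _ => w x) (fun _ => hD) (fun x _ => hw x)
    (fun _ => hφ) ((av_le fun _ => av_le fun _ => ind_le_one _).trans ((div_le_iff₀ hΘ).1 ht))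
  rwa [av_const] at this

theorem tile_fin {α : Type} [Finite α] [Nonempty α] (H : DHJ α) (d : Type) [Finite d] {τ : ℝ}
    (hτ : 0 < τ) (I : Finset α) : ∃ (ι : Type) (_ : Finite ι),
      ∀ (D : α → (ι → Option α) → Prop) (w : (ι → Option α) → ℝ), (∀ i, Ins i (D i)) →
      (∀ x, w x ≤ 1) → (∀ φ : (d → Option α) → ι → Option α, IsSub φ →
        (∀ u, ∀ i ∈ I, D i (φ u)) → (av fun u => w (φ u)) ≤ 0) →
      (av fun x => ind (∀ i ∈ I, D i x) * w x) ≤ I.card * τ := by
  classical
  induction I using Finset.induction_on with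
  | empty =>
    refine ⟨d, inferInstance, fun D w _ _ hφ => ?_⟩
    have := hφ (fun x j => x j) (isSubP_surj _ Function.surjective_id) (by simp)
    simpa [ind_pos] using this
  | insert a I ha ih =>
    obtain ⟨ι₁, _, h₁⟩ := ih
    obtain ⟨ι, _, h⟩ := tile_one H ι₁ hτ
    refine ⟨ι, inferInstance, fun D w hD hw hφ => ?_⟩
    have hI : (0 : ℝ) ≤ I.card * τ := by positivity
    have h2 := h a (D a) (fun x => ind (∀ i ∈ I, D i x) * w x - I.card * τ) (hD a)
      (fun x => by
        linarith [(mul_le_of_le_one_right (ind_nonneg (∀ i ∈ I, D i x)) (hw x)).trans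
          (ind_le_one _)])
      (fun ψ hψ hu => by
        rw [av_sub, av_const, sub_nonpos]
        exact h₁ (fun i x => D i (ψ x)) (fun x => w (ψ x)) (fun i => (hD i).comp hψ)
          (fun x => hw _) fun φ h1 h2 => hφ _ (hψ.comp h1) fun u =>
            Finset.forall_mem_insert _ _ _ |>.2 ⟨hu _, h2 u⟩)
    have h3 : (av fun x => ind (∀ i ∈ insert a I, D i x) * w x) ≤
        av fun x => ind (D a x) * (ind (∀ i ∈ I, D i x) * w x - I.card * τ) + I.card * τ := by
      refine av_mono fun x => ?_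
      rw [Finset.forall_mem_insert, ind_and]
      nlinarith [mul_le_of_le_one_left hI (ind_le_one (D a x))]
    rw [av_add, av_const] at h3
    rw [Finset.card_insert_of_notMem ha]
    push_cast
    linarith

end ECub.A
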