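import Pool.Agent.P.MP_029dcd_co.F.A.GR
import Pool.Agent.P.MP_029dcd_co.F.A.Tile

/-! The density Hales-Jewett theorem. -/

set_option autoImplicit false

namespace ECub.A

theorem few_old (α : Type) [Finite α] {γ : ℝ} (hγ : 0 < γ) : ∃ (κ : Type) (_ : Finite κ),
    (av fun x : κ → Option α => ind (∀ j, x j ≠ none)) ≤ γ := by
  have c := card_pos' (Option α)
  have h1 : (av fun b : Option α => ind (b ≠ none)) = 1 - 1 / Nat.card (Option α) := by
    simp only [ne_eq, ind_not]
    rw [av_sub, av_const, av_single]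
  have h2 : ∀ N : ℕ, ∃ (κ : Type) (_ : Finite κ),
      (av fun x : κ → Option α => ind (∀ j, x j ≠ none)) ≤
        (1 - 1 / (Nat.card (Option α) : ℝ)) ^ N := by
    intro N
    induction N with
    | zero => exact ⟨PEmpty, inferInstance, av_le fun _ => by rw [pow_zero]; exact ind_le_one _⟩
    | succ N ih =>
      obtain ⟨κ, _, h⟩ := ih
      refine ⟨Unit ⊕ κ, inferInstance, ?_⟩
      have h3 : (av fun b : Unit → Option α => ind (∀ j, b j ≠ none)) =
          1 - 1 / Nat.card (Option α) := by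
        rw [← h1, ← av_equiv (Equiv.funUnique Unit (Option α)).symm]
        simp
      rw [av_sum, pow_succ, ← h3, ← av_mul]
      refine av_mono fun b => ?_
      simp only [Sum.forall, Sum.elim_inl, Sum.elim_inr, ind_and, av_mul]
      rw [mul_comm, h3]
      exact mul_le_mul_of_nonneg_right h (ind_nonneg _)
  obtain ⟨N, hN⟩ := exists_pow_lt_of_lt_one hγ
    (show 1 - 1 / (Nat.card (Option α) : ℝ) < 1 by linarith [one_div_pos.2 c])
  obtain ⟨κ, _, h⟩ := h2 N
  exact ⟨κ, inferInstance, h.trans hN.le⟩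

theorem corr {α : Type} [Finite α] [Nonempty α] (H : DHJ α) (d : Type) [Finite d] {γ : ℝ}
    (hγ : 0 < γ) : ∃ (m : Type) (_ : Finite m),
      (av fun x : m → Option α => ind (∀ j, x j ≠ none)) ≤ γ ∧
      ∀ (C : α → (m → Option α) → Prop) (w : (m → Option α) → ℝ), (∀ i, Ins i (C i)) →
      (∀ x, w x ≤ 1) → (∀ φ : (d → Option α) → m → Option α, IsSub φ →
        (av fun u => w (φ u)) ≤ 0) → (av fun x => ind (¬ ∀ i, C i x) * w x) ≤ γ := by
  classical
  have := Fintype.ofFinite α
  have c : (0 : ℝ) < Fintype.card α := by exact_mod_cast Fintype.card_pos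
  obtain ⟨ι, _, h⟩ := tile_fin H d (div_pos (div_pos hγ c) c) Finset.univ
  obtain ⟨κ, _, hκ⟩ := few_old α hγ
  have h1 : ∀ (C : α → (ι → Option α) → Prop) (w : (ι → Option α) → ℝ), (∀ i, Ins i (C i)) →
      (∀ x, w x ≤ 1) → (∀ φ : (d → Option α) → ι → Option α, IsSub φ →
        (av fun u => w (φ u)) ≤ 0) → ∀ J : Finset α,
      (av fun x => ind (¬ ∀ i ∈ J, C i x) * w x) ≤ J.card * (γ / Fintype.card α) := by
    intro C w hC hw hφ J
    induction J using Finset.induction_on with
    | empty => simp [ind_neg, av_const]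
    | insert a J ha ih =>
      have h2 := h (fun i x => (i = a → ¬ C i x) ∧ (i ∈ J → C i x)) w
        (fun i x x' hx hh => ⟨fun hi => (hC i).not x x' hx (hh.1 hi),
          fun hi => hC i x x' hx (hh.2 hi)⟩) hw fun φ hs _ => hφ φ hs
      have h3 : ∀ x, ind (¬ ∀ i ∈ insert a J, C i x) = ind (¬ ∀ i ∈ J, C i x) +
          ind (∀ i ∈ Finset.univ, (i = a → ¬ C i x) ∧ (i ∈ J → C i x)) := by
        intro x
        simp only [Finset.forall_mem_insert, Finset.mem_univ, forall_true_left, forall_and,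
          forall_eq, ind_not, ind_and]
        ring
      simp only [h3, add_mul, av_add]
      rw [Finset.card_insert_of_notMem ha]
      rw [Finset.card_univ, mul_div_cancel₀ _ c.ne'] at h2
      push_cast
      linarith
  refine ⟨ι ⊕ κ, inferInstance, ?_, fun C w hC hw hφ => ?_⟩
  · rw [av_sum]
    exact av_le fun x => le_trans (av_mono fun y => ind_mono fun hh j => hh (Sum.inr j)) hκ
  · rw [av_sum, av_comm]
    refine av_le fun y => ?_
    have h2 := h1 (fun i x => C i (Sum.elim x y)) (fun x => w (Sum.elim x y))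
      (fun i => (hC i).comp (isSub_left y)) (fun x => hw _)
      (fun φ hs => hφ _ ((isSub_left y).comp hs)) Finset.univ
    rw [Finset.card_univ, mul_div_cancel₀ _ c.ne'] at h2
    simpa only [Finset.mem_univ, forall_true_left] using h2

/-- A subspace all of whose slices are dense and all of whose old lines are popular. -/
theorem popular {α : Type} [Finite α] [Nonempty α] (H : DHJ α) {δ : ℝ} (hδ : 0 < δ) :
    ∃ θ : ℝ, 0 < θ ∧ θ ≤ 1 ∧ ∀ (m : Type) [Finite m] (ε : ℝ), 0 < ε → ε ≤ δ / 2 →
      ∃ (ι : Type) (_ : Finite ι), ∀ A : (ι → Option α) → Prop, δ ≤ (av fun x => ind (A x)) →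
      ∃ (Y : Type) (_ : Finite Y) (_ : Nonempty Y) (W : Y → (m → Option α) → ι → Option α),
        (∀ y, IsSub (W y)) ∧ (∀ x, (av fun x => ind (A x)) - ε ≤ av fun y => ind (A (W y x))) ∧
        ∀ x, (∃ j, x j = none) →
          θ ≤ av fun y => ind (∀ i, A (W y fun j => some (ev x i j))) := by
  obtain ⟨m₀, _, h₀⟩ := H (δ / 4) (by positivity)
  have c := card_pos' (m₀ → Option α)
  refine ⟨min (δ / 4 / Nat.card (m₀ → Option α)) 1, by positivity, min_le_right _ _,
    fun m _ ε hε hε' => ?_⟩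
  obtain ⟨G, _, hG⟩ := gr α Prop (m ⊕ m₀)
  obtain ⟨ι, _, h⟩ := unif (Option α) G hε
  refine ⟨ι, inferInstance, fun A hA => ?_⟩
  obtain ⟨κ, _, φ, h1, h2⟩ := h (fun x => ind (A x)) (fun _ => ind_nonneg _) fun _ => ind_le_one _
  obtain ⟨ψ, h3, col, h4⟩ := hG fun x => δ / 4 / Nat.card (m₀ → Option α) ≤
    av fun y : κ → Option α => ind (∀ i, A (φ (Sum.elim (fun j => some (ev x i j)) y)))
  obtain ⟨a₀⟩ := ‹Nonempty α›
  have h5 : δ / 2 ≤ av fun u : m₀ → α => av fun y : κ → Option α =>
      ind (A (φ (Sum.elim (ψ (Sum.elim (fun _ => some a₀) fun j => some (u j))) y))) :=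
    le_av fun u => le_trans (by linarith) (h2 _)
  rw [av_comm] at h5
  have h6 := markov (f := fun y : κ → Option α => av fun u : m₀ → α =>
      ind (A (φ (Sum.elim (ψ (Sum.elim (fun _ => some a₀) fun j => some (u j))) y))))
    (fun y => av_le fun x => ind_le_one _) (show 0 ≤ δ / 4 by positivity)
  obtain ⟨l, hl⟩ := pigeon
    (p := fun y : κ → Option α => δ / 4 ≤ av fun u : m₀ → α =>
      ind (A (φ (Sum.elim (ψ (Sum.elim (fun _ => some a₀) fun j => some (u j))) y))))
    (q := fun (l : m₀ → Option α) (y : κ → Option α) => (∃ j, l j = none) ∧ ∀ i,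
      A (φ (Sum.elim (ψ (Sum.elim (fun _ => some a₀) fun j => some (ev l i j))) y)))
    fun y hy => h₀ _ hy
  have h7 := (div_le_div_of_nonneg_right
    (show δ / 4 ≤ _ from le_trans (by linarith) h6) c.le).trans hl
  obtain ⟨_, ⟨j₀, hj₀⟩, -⟩ := exists_of_av_pos ((div_pos (by positivity) c).trans_le h7)
  have hcol : col := by
    rw [← h4 (Sum.elim (fun _ => some a₀) l) ⟨Sum.inr j₀, hj₀⟩]
    refine h7.trans (av_mono fun y => ind_mono fun hh i => ?_)
    rw [← h3.ev_comm]
    convert hh.2 i using 4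
    funext j
    cases j <;> rfl
  refine ⟨κ → Option α, inferInstance, inferInstance,
    fun y x => φ (Sum.elim (ψ (Sum.elim x fun _ => some a₀)) y),
    fun y => h1.comp ((isSub_left y).comp (h3.isSub.comp (isSub_left _))), fun x => h2 _,
    fun x ⟨j, hj⟩ => (min_le_left _ _).trans ?_⟩
  rw [← h4 (Sum.elim x fun _ => some a₀) ⟨Sum.inl j, hj⟩] at hcol
  refine hcol.trans (av_mono fun y => ind_mono fun hh i => ?_)
  have := hh i
  rw [← h3.ev_comm] at this
  convert this using 4
  funext j
  cases j <;> rfl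

/-- The density increment. -/
theorem incr {α : Type} [Finite α] [Nonempty α] (H : DHJ α) {δ : ℝ} (hδ : 0 < δ) :
    ∃ γ : ℝ, 0 < γ ∧ ∀ (d : Type) [Finite d], ∃ (ι : Type) (_ : Finite ι),
      ∀ A : (ι → Option α) → Prop, δ ≤ (av fun x => ind (A x)) → ¬ HasLine A →
      ∃ φ : (d → Option α) → ι → Option α, IsSub φ ∧
        (av fun x => ind (A x)) + γ ≤ av fun u => ind (A (φ u)) := by
  obtain ⟨θ, hθ, hθ1, h₀⟩ := popular H hδ
  have hγ : 0 < δ * θ / 10 := by positivity
  refine ⟨δ * θ / 10, hγ, fun d _ => ?_⟩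
  obtain ⟨m, _, hm, h₁⟩ := corr H d hγ
  obtain ⟨ι, _, h₂⟩ := h₀ m _ hγ (by nlinarith)
  refine ⟨ι, inferInstance, fun A hA hl => ?_⟩
  by_contra hn
  simp only [not_exists, not_and, not_le] at hn
  obtain ⟨Y, _, _, W, h1, h2, h3⟩ := h₂ A hA
  have hA1 : (av fun x => ind (A x)) ≤ 1 := av_le fun _ => ind_le_one _
  generalize (av fun x => ind (A x)) = r at hA hA1 hn h2
  generalize hg : δ * θ / 10 = γ at *
  have h4 : ∀ y, (av fun x => ind (A (W y x))) ≤ 2 * γ + (r + γ) *
      (1 - av fun x => ind (∀ i, A (W y fun j => some (ev x i j)))) := by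
    intro y
    have h5 := h₁ (fun i x => A (W y fun j => some (ev x i j)))
      (fun x => ind (A (W y x)) - (r + γ)) (fun i x x' hx hh => by simpa only [hx] using hh)
      (fun x => by linarith [ind_le_one (A (W y x))]) fun φ hs => by
        rw [av_sub, av_const, sub_nonpos]
        exact (hn _ ((h1 y).comp hs)).le
    have h6 : (av fun x => ind (A (W y x))) ≤ av fun x => ind (∀ j, x j ≠ none) +
        (ind (¬ ∀ i, A (W y fun j => some (ev x i j))) * (ind (A (W y x)) - (r + γ)) +
          (r + γ) * (1 - ind (∀ i, A (W y fun j => some (ev x i j))))) := by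
      refine av_mono fun x => ?_
      rw [ind_not]
      by_cases hc : ∀ i, A (W y fun j => some (ev x i j))
      · rw [ind_pos hc, sub_self, zero_mul, mul_zero, add_zero, add_zero]
        refine ind_mono fun hx j hj => hl (HasLine.of_sub (h1 y)
          ⟨fun j => (x j).map some, ⟨j, by simp [hj]⟩, ?_⟩)
        rintro (_ | i)
        · rwa [show ev (fun j => (x j).map some) none = x from
            funext fun j => by simp only [ev]; cases x j <;> rfl]
        · rw [show ev (fun j => (x j).map some) (some i) = fun j => some (ev x i j) from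
            funext fun j => by simp only [ev]; cases x j <;> rfl]
          exact hc i
      · rw [ind_neg hc]
        linarith [ind_nonneg (∀ j, x j ≠ none)]
    rw [av_add, av_add, av_mul, av_sub, av_const] at h6
    linarith
  have h7 : r - γ ≤ av fun y => av fun x => ind (A (W y x)) := by
    rw [av_comm]
    exact le_av h2
  have h8 : θ * (1 - γ) ≤ av fun y => av fun x : m → Option α =>
      ind (∀ i, A (W y fun j => some (ev x i j))) := by
    rw [av_comm]
    have h9 : (av fun x : m → Option α => θ * (1 - ind (∀ j, x j ≠ none))) ≤ _ :=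
      av_mono (g := fun x : m → Option α => av fun y =>
        ind (∀ i, A (W y fun j => some (ev x i j)))) fun x => by
        by_cases hx : ∀ j, x j ≠ none
        · rw [ind_pos hx, sub_self, mul_zero]
          exact le_av fun _ => ind_nonneg _
        · rw [ind_neg hx, sub_zero, mul_one]
          exact h3 x (by simpa using hx)
    rw [av_mul, av_sub, av_const] at h9
    exact le_trans (mul_le_mul_of_nonneg_left (by linarith) hθ.le) h9
  have h10 := h7.trans (av_mono h4)
  rw [av_add, av_const, av_mul, av_sub, av_const] at h10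
  have h11 : γ ≤ 1 / 10 := by nlinarith
  have h12 := mul_le_mul_of_nonneg_left h8 (show 0 ≤ r + γ by linarith)
  have h13 : δ * (θ * (9 / 10)) ≤ (r + γ) * (θ * (1 - γ)) :=
    mul_le_mul (by linarith) (mul_le_mul_of_nonneg_left (by linarith) hθ.le) (by positivity)
      (by linarith)
  nlinarith

theorem dhj_option {α : Type} [Finite α] [Nonempty α] (H : DHJ α) : DHJ (Option α) := by
  intro δ hδ
  obtain ⟨γ, hγ, h⟩ := incr H hδ
  have h1 : ∀ t : ℕ, ∃ (ι : Type) (_ : Finite ι), ∀ A : (ι → Option α) → Prop,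
      δ ≤ (av fun x => ind (A x)) → 1 - t * γ < (av fun x => ind (A x)) → HasLine A := by
    intro t
    induction t with
    | zero =>
      refine ⟨PEmpty, inferInstance, fun A _ h => ?_⟩
      have : (av fun x => ind (A x)) ≤ 1 := av_le fun _ => ind_le_one _
      simp only [Nat.cast_zero, zero_mul, sub_zero] at h
      linarith
    | succ t ih =>
      obtain ⟨d, _, hd⟩ := ih
      obtain ⟨ι, _, hι⟩ := h d
      refine ⟨ι, inferInstance, fun A hA ht => ?_⟩
      by_contra hl
      obtain ⟨φ, h2, h3⟩ := hι A hA hl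
      push_cast at ht
      exact hl (HasLine.of_sub h2 (hd _ (by linarith) (by linarith)))
  obtain ⟨t, ht⟩ := exists_nat_ge (1 / γ)
  obtain ⟨ι, _, h2⟩ := h1 t
  rw [div_le_iff₀ hγ] at ht
  exact ⟨ι, inferInstance, fun A hA => h2 A hA (by linarith)⟩

theorem dhj_all (α : Type) [Finite α] : DHJ α := by
  have sub : ∀ (β : Type) [Finite β] [Subsingleton β], DHJ β := by
    intro β _ _ δ hδ
    refine ⟨Unit, inferInstance, fun A hA => ?_⟩
    obtain ⟨x, hx⟩ := exists_of_av_pos (hδ.trans_le hA)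
    exact ⟨fun _ => none, ⟨(), rfl⟩, fun a => by rwa [Subsingleton.elim (ev _ a) x]⟩
  induction α using Finite.induction_empty_option with
  | @of_equiv α α' e ih =>
    intro δ hδ
    obtain ⟨ι, _, h⟩ := ih δ hδ
    refine ⟨ι, inferInstance, fun A hA => ?_⟩
    rw [← av_equiv (Equiv.piCongrRight fun _ : ι => e)] at hA
    obtain ⟨l, ⟨j, hj⟩, hl⟩ := h _ hA
    refine ⟨fun j => (l j).map e, ⟨j, by simp [hj]⟩, fun a => ?_⟩
    convert hl (e.symm a) using 1
    funext j
    simp only [ev, Equiv.piCongrRight_apply, Pi.map_apply]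
    cases l j <;> simp
  | h_empty => exact sub _
  | @h_option α _ ih =>
    rcases isEmpty_or_nonempty α with hα | hα
    · exact sub _
    · exact dhj_option ih

theorem dhj_fin (α : Type) [Fintype α] [Nonempty α] (δ : ℝ) (hδ : 0 < δ) :
    ∃ n0 : ℕ, ∀ n, n0 ≤ n → ∀ A : Finset (Fin n → α),
      δ * (Fintype.card α : ℝ) ^ n ≤ A.card →
      ∃ l : Combinatorics.Line α (Fin n), ∀ a, l a ∈ A := by
  classical
  obtain ⟨ι, _, h⟩ := dhj_all α δ hδ
  refine ⟨Nat.card ι, fun n hn A hA => ?_⟩
  obtain ⟨k, rfl⟩ := Nat.exists_eq_add_of_le hn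
  let e : Fin (Nat.card ι + k) ≃ ι ⊕ Fin k :=
    finSumFinEquiv.symm.trans (Equiv.sumCongr (Finite.equivFin ι).symm (Equiv.refl _))
  have c : (0 : ℝ) < (Fintype.card α : ℝ) ^ (Nat.card ι + k) :=
    pow_pos (by exact_mod_cast Fintype.card_pos) _
  have h1 : δ ≤ av fun x => ind (x ∈ A) := by
    rw [av_eq, Fintype.card_fun, Fintype.card_fin, Nat.cast_pow, le_div_iff₀ c]
    refine hA.trans (le_of_eq ?_)
    rw [← Finset.sum_subset (Finset.subset_univ A) fun x _ hx => ind_neg hx,
      Finset.sum_congr rfl fun x hx => ind_pos hx]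
    simp
  rw [← av_equiv (Equiv.arrowCongr e.symm (Equiv.refl α)), av_sum, av_comm] at h1
  obtain ⟨y, hy⟩ := exists_le_of_av h1
  obtain ⟨l, h2, h3⟩ := HasLine.of_sub (A := fun x => x ∈ A)
    ((isSubP_surj _ e.surjective).comp (isSub_left y)) (h _ hy)
  exact ⟨⟨l, h2⟩, h3⟩

end ECub.A
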