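import Mathlib

/-! Averages over finite types, indicators, combinatorial subspaces as maps. -/

set_option autoImplicit false

namespace ECub.A

/-- The average of `f`. -/
noncomputable def av {X : Type} (f : X → ℝ) : ℝ := (∑ᶠ x, f x) / Nat.card X

open Classical in
/-- The indicator of a proposition. -/
noncomputable def ind (p : Prop) : ℝ := if p then 1 else 0

theorem ind_pos {p : Prop} (h : p) : ind p = 1 := if_pos h

theorem ind_neg {p : Prop} (h : ¬ p) : ind p = 0 := if_neg h

theorem ind_nonneg (p : Prop) : 0 ≤ ind p := by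
  by_cases h : p <;> simp [ind_pos, ind_neg, h]

theorem ind_le_one (p : Prop) : ind p ≤ 1 := by
  by_cases h : p <;> simp [ind_pos, ind_neg, h]

theorem ind_mono {p q : Prop} (h : p → q) : ind p ≤ ind q := by
  by_cases hp : p
  · rw [ind_pos hp, ind_pos (h hp)]
  · rw [ind_neg hp]; exact ind_nonneg q

theorem ind_not (p : Prop) : ind (¬ p) = 1 - ind p := by
  by_cases h : p <;> simp [ind_pos, ind_neg, h]

theorem ind_and (p q : Prop) : ind (p ∧ q) = ind p * ind q := by
  by_cases hp : p <;> by_cases hq : q <;> simp [ind_pos, ind_neg, hp, hq]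

section Av

variable {X Y : Type}

theorem av_eq [Fintype X] (f : X → ℝ) : av f = (∑ x, f x) / Fintype.card X := by
  rw [av, finsum_eq_sum_of_fintype, Nat.card_eq_fintype_card]

theorem card_pos' (X : Type) [Finite X] [Nonempty X] : (0 : ℝ) < Nat.card X := by
  exact_mod_cast Nat.card_pos

theorem av_mono [Finite X] {f g : X → ℝ} (h : ∀ x, f x ≤ g x) : av f ≤ av g := by
  have := Fintype.ofFinite X
  rw [av_eq, av_eq]
  exact div_le_div_of_nonneg_right (Finset.sum_le_sum fun x _ => h x) (Nat.cast_nonneg _)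

theorem av_const [Finite X] [Nonempty X] (c : ℝ) : av (fun _ : X => c) = c := by
  have := Fintype.ofFinite X
  have h : (Fintype.card X : ℝ) ≠ 0 := by exact_mod_cast Fintype.card_ne_zero
  rw [av_eq, Finset.sum_const, Finset.card_univ, nsmul_eq_mul]
  field_simp

theorem av_add [Finite X] (f g : X → ℝ) : av (fun x => f x + g x) = av f + av g := by
  have := Fintype.ofFinite X
  rw [av_eq, av_eq, av_eq, Finset.sum_add_distrib, add_div]

theorem av_sub [Finite X] (f g : X → ℝ) : av (fun x => f x - g x) = av f - av g := by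
  have := Fintype.ofFinite X
  rw [av_eq, av_eq, av_eq, Finset.sum_sub_distrib, sub_div]

theorem av_mul [Finite X] (c : ℝ) (f : X → ℝ) : av (fun x => c * f x) = c * av f := by
  have := Fintype.ofFinite X
  rw [av_eq, av_eq, ← Finset.mul_sum, mul_div_assoc]

theorem av_le [Finite X] [Nonempty X] {f : X → ℝ} {c : ℝ} (h : ∀ x, f x ≤ c) : av f ≤ c :=
  (av_mono h).trans (av_const c).le

theorem le_av [Finite X] [Nonempty X] {f : X → ℝ} {c : ℝ} (h : ∀ x, c ≤ f x) : c ≤ av f :=
  (av_const c).ge.trans (av_mono h)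

theorem exists_le_of_av [Finite X] [Nonempty X] {f : X → ℝ} {c : ℝ} (h : c ≤ av f) :
    ∃ x, c ≤ f x := by
  obtain ⟨x, hx⟩ := Finite.exists_max f
  exact ⟨x, h.trans (av_le hx)⟩

theorem exists_of_av_pos [Finite X] {p : X → Prop} (h : 0 < av fun x => ind (p x)) : ∃ x, p x := by
  by_contra hn
  have : (fun x => ind (p x)) = fun _ => 0 := funext fun x => ind_neg fun hx => hn ⟨x, hx⟩
  simp [this, av] at h

theorem av_equiv (e : X ≃ Y) (f : Y → ℝ) : av (fun x => f (e x)) = av f := by
  rw [av, av, Nat.card_congr e, finsum_comp_equiv e]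

theorem av_prod [Finite X] [Finite Y] (f : X × Y → ℝ) :
    av f = av fun x => av fun y => f (x, y) := by
  have := Fintype.ofFinite X
  have := Fintype.ofFinite Y
  simp only [av_eq]
  rw [Fintype.sum_prod_type, Fintype.card_prod, ← Finset.sum_div, div_div, Nat.cast_mul, mul_comm]

theorem av_comm [Finite X] [Finite Y] (f : X → Y → ℝ) :
    (av fun x => av fun y => f x y) = av fun y => av fun x => f x y := by
  rw [← av_prod fun p : X × Y => f p.1 p.2, ← av_prod fun p : Y × X => f p.2 p.1]
  exact (av_equiv (Equiv.prodComm Y X) fun p : X × Y => f p.1 p.2).symm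

theorem av_sum {ι κ β : Type} [Finite ι] [Finite κ] [Finite β] (f : (ι ⊕ κ → β) → ℝ) :
    av f = av fun x => av fun y => f (Sum.elim x y) := by
  rw [← av_equiv (Equiv.sumArrowEquivProdArrow ι κ β).symm f, av_prod]
  rfl

theorem markov [Finite X] [Nonempty X] {f : X → ℝ} (hf : ∀ x, f x ≤ 1) {c : ℝ} (hc : 0 ≤ c) :
    av f - c ≤ av fun x => ind (c ≤ f x) := by
  have h : av f ≤ av fun x => c + ind (c ≤ f x) := by
    refine av_mono fun x => ?_
    by_cases h : c ≤ f x
    · rw [ind_pos h]; linarith [hf x]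
    · rw [ind_neg h]; linarith [not_le.1 h]
  rw [av_add, av_const] at h
  linarith

theorem av_single [Finite X] (x₀ : X) : av (fun x => ind (x = x₀)) = 1 / Nat.card X := by
  rw [av, finsum_eq_single _ x₀ fun x hx => ind_neg hx, ind_pos rfl]

theorem pigeon [Finite X] {C : Type} [Finite C] [Nonempty C] {p : X → Prop} {q : C → X → Prop}
    (h : ∀ x, p x → ∃ c, q c x) :
    ∃ c, (av fun x => ind (p x)) / Nat.card C ≤ av fun x => ind (q c x) := by
  apply exists_le_of_av (f := fun c => av fun x => ind (q c x))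
  rw [av_comm, div_eq_inv_mul, ← av_mul]
  refine av_mono fun x => ?_
  by_cases hp : p x
  · obtain ⟨c, hc⟩ := h x hp
    rw [ind_pos hp, mul_one, ← one_div, ← av_single c]
    exact av_mono fun c' => ind_mono fun h => h ▸ hc
  · rw [ind_neg hp, mul_zero]
    exact le_av fun c => ind_nonneg _

theorem av_range_nonpos [Finite X] [Finite Y] {φ : X → Y} (hφ : Function.Injective φ) {g : Y → ℝ}
    (h : (av fun x => g (φ x)) ≤ 0) : (av fun y => ind (y ∈ Set.range φ) * g y) ≤ 0 := by
  classical
  have := Fintype.ofFinite X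
  have := Fintype.ofFinite Y
  rw [av_eq] at h ⊢
  refine div_nonpos_of_nonpos_of_nonneg ?_ (Nat.cast_nonneg _)
  have h1 : ∑ y, ind (y ∈ Set.range φ) * g y = ∑ x, g (φ x) := by
    rw [← Finset.sum_image (s := Finset.univ) (f := g) fun a _ b _ h => hφ h]
    symm
    refine Finset.sum_subset_zero_on_sdiff (Finset.subset_univ _) (fun y hy => ?_) fun y hy => ?_
    · rw [ind_neg, zero_mul]
      simpa using hy
    · rw [ind_pos, one_mul]
      simpa using hy
  rw [h1]
  rcases isEmpty_or_nonempty X with hX | hX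
  · simp
  · have hc : (0 : ℝ) < Fintype.card X := by exact_mod_cast Fintype.card_pos
    exact (div_nonpos_iff.1 h).elim (fun h => absurd h.2 (not_le.2 hc)) fun h => h.1

end Av

section Sub

variable {β ι η ζ κ : Type}

/-- `φ` parametrises a combinatorial subspace whose constant letters satisfy `P`. -/
def IsSubP (P : β → Prop) (φ : (η → β) → ι → β) : Prop :=
  ∃ w : ι → β ⊕ η, (∀ j a, w j = Sum.inl a → P a) ∧ (∀ e, ∃ j, w j = Sum.inr e) ∧
    ∀ x j, φ x j = (w j).elim id x

/-- `φ` parametrises a combinatorial subspace. -/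
abbrev IsSub (φ : (η → β) → ι → β) : Prop := IsSubP (fun _ => True) φ

theorem IsSubP.isSub {P : β → Prop} {φ : (η → β) → ι → β} (h : IsSubP P φ) : IsSub φ := by
  obtain ⟨w, -, h2, h3⟩ := h
  exact ⟨w, fun _ _ _ => trivial, h2, h3⟩

theorem IsSubP.comp {P : β → Prop} {φ : (η → β) → ι → β} {ψ : (ζ → β) → η → β}
    (h : IsSubP P φ) (h' : IsSubP P ψ) : IsSubP P fun x => φ (ψ x) := by
  obtain ⟨w, h1, h2, h3⟩ := h
  obtain ⟨w', h1', h2', h3'⟩ := h'
  refine ⟨fun j => (w j).elim Sum.inl w', fun j a h => ?_, fun e => ?_, fun x j => ?_⟩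
  · cases hw : w j with
    | inl b =>
      simp only [hw, Sum.elim_inl, Sum.inl.injEq] at h
      exact h1 j a (h ▸ hw)
    | inr e =>
      simp only [hw, Sum.elim_inr] at h
      exact h1' e a h
  · obtain ⟨e', he'⟩ := h2' e
    obtain ⟨j, hj⟩ := h2 e'
    exact ⟨j, by simp only [hj, Sum.elim_inr, he']⟩
  · simp only [h3]
    cases w j with
    | inl b => rfl
    | inr e => exact h3' x e

theorem isSubP_surj (P : β → Prop) {g : ι → η} (hg : Function.Surjective g) :
    IsSubP P fun x : η → β => fun j => x (g j) :=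
  ⟨fun j => Sum.inr (g j), fun _ _ h => by simp at h,
    fun e => (hg e).imp fun _ hj => congrArg Sum.inr hj, fun _ _ => rfl⟩

theorem isSubP_left {P : β → Prop} {y : κ → β} (hy : ∀ j, P (y j)) :
    IsSubP P fun x : ι → β => Sum.elim x y :=
  ⟨Sum.elim Sum.inr fun j => Sum.inl (y j), by
    rintro (j | j) a h
    · simp at h
    · simp only [Sum.elim_inr, Sum.inl.injEq] at h
      exact h ▸ hy j, fun e => ⟨Sum.inl e, rfl⟩, by rintro x (j | j) <;> rfl⟩

theorem isSub_left (y : κ → β) : IsSub fun x : ι → β => Sum.elim x y :=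
  isSubP_left fun _ => trivial

theorem isSub_right (y : κ → β) : IsSub fun x : ι → β => Sum.elim y x :=
  ⟨Sum.elim (fun j => Sum.inl (y j)) Sum.inr, fun _ _ _ => trivial,
    fun e => ⟨Sum.inr e, rfl⟩, by rintro x (j | j) <;> rfl⟩

theorem IsSubP.injective {P : β → Prop} {φ : (η → β) → ι → β} (h : IsSubP P φ) :
    Function.Injective φ := by
  obtain ⟨w, -, h2, h3⟩ := h
  intro x x' hx
  funext e
  obtain ⟨j, hj⟩ := h2 e
  have := congrFun hx j
  rwa [h3, h3, hj] at this

/-- The point of the line `l` at the letter `a`. -/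
def ev (l : ι → Option β) (a : β) : ι → β := fun j => (l j).getD a

/-- A line together with one more direction. -/
theorem IsSubP.cons {P : β → Prop} {l : ι → Option β} (hl : ∃ j, l j = none)
    (hP : ∀ j a, l j = some a → P a) {φ : (η → β) → κ → β} (h : IsSubP P φ) :
    IsSubP P fun x : Option η → β => Sum.elim (ev l (x none)) (φ fun e => x (some e)) := by
  obtain ⟨w, h1, h2, h3⟩ := h
  refine ⟨Sum.elim (fun j => (l j).elim (Sum.inr none) Sum.inl) fun j => (w j).map id some,
    ?_, ?_, ?_⟩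
  · rintro (j | j) a h
    · cases hj : l j with
      | none => simp [hj] at h
      | some b =>
        simp only [hj, Sum.elim_inl, Option.elim_some, Sum.inl.injEq] at h
        exact hP j a (h ▸ hj)
    · cases hj : w j with
      | inl b =>
        simp only [hj, Sum.elim_inr, Sum.map_inl, id_eq, Sum.inl.injEq] at h
        exact h1 j a (h ▸ hj)
      | inr e => simp [hj] at h
  · rintro (_ | e)
    · obtain ⟨j, hj⟩ := hl
      exact ⟨Sum.inl j, by simp [hj]⟩
    · obtain ⟨j, hj⟩ := h2 e
      exact ⟨Sum.inr j, by simp [hj]⟩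
  · rintro x (j | j)
    · simp only [Sum.elim_inl, ev]
      cases l j <;> rfl
    · simp only [Sum.elim_inr, h3]
      cases w j <;> rfl

theorem IsSubP.lift {P : β → Prop} {φ : (η → β) → ι → β} (h : IsSubP P φ) :
    ∃ ψ : (η → Option β) → ι → Option β, IsSubP (· ≠ none) ψ ∧
      (∀ x a, ev (ψ x) a = φ (ev x a)) ∧ ∀ u, ψ (fun e => some (u e)) = fun j => some (φ u j) := by
  obtain ⟨w, -, h2, h3⟩ := h
  refine ⟨fun x j => ((w j).map some id).elim id x, ⟨fun j => (w j).map some id, ?_, ?_,
    fun _ _ => rfl⟩, fun x a => funext fun j => ?_, fun u => funext fun j => ?_⟩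
  · intro j a h
    cases hj : w j with
    | inl b =>
      simp only [hj, Sum.map_inl, Sum.inl.injEq] at h
      simp [← h]
    | inr e => simp [hj] at h
  · intro e
    obtain ⟨j, hj⟩ := h2 e
    exact ⟨j, by simp [hj]⟩
  · simp only [ev, h3]
    cases w j <;> rfl
  · simp only [h3]
    cases w j <;> rfl

theorem IsSubP.exists_eq {P : β → Prop} {φ : (η → β) → ι → β} (h : IsSubP P φ) (x : η → β)
    (e : η) : ∃ j, φ x j = x e := by
  obtain ⟨w, -, h2, h3⟩ := h
  obtain ⟨j, hj⟩ := h2 e
  exact ⟨j, by rw [h3, hj]; rfl⟩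

theorem IsSubP.ev_comm {ψ : (η → Option β) → ι → Option β} (h : IsSubP (· ≠ none) ψ)
    (x : η → Option β) (a : β) :
    ψ (fun e => some (ev x a e)) = fun j => some (ev (ψ x) a j) := by
  obtain ⟨w, h1, -, h3⟩ := h
  funext j
  simp only [ev, h3]
  cases hj : w j with
  | inl b =>
    obtain ⟨c, rfl⟩ := Option.ne_none_iff_exists'.1 (h1 j b hj)
    rfl
  | inr e => rfl

/-- The set `A` contains a combinatorial line. -/
def HasLine (A : (ι → β) → Prop) : Prop :=
  ∃ l : ι → Option β, (∃ j, l j = none) ∧ ∀ a, A (ev l a)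

theorem HasLine.of_sub {A : (ι → β) → Prop} {φ : (η → β) → ι → β} (hφ : IsSub φ)
    (h : HasLine fun x => A (φ x)) : HasLine A := by
  obtain ⟨l, ⟨e, he⟩, hl⟩ := h
  obtain ⟨ψ, h1, h2, -⟩ := hφ.lift
  exact ⟨ψ l, he ▸ h1.exists_eq l e, fun a => by rw [h2]; exact hl a⟩

/-- `D` does not distinguish the letter `i` from the new letter. -/
def Ins (i : β) (D : (ι → Option β) → Prop) : Prop :=
  ∀ x x', ev x i = ev x' i → D x → D x'

theorem Ins.comp {i : β} {D : (ι → Option β) → Prop} (h : Ins i D)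
    {φ : (η → Option β) → ι → Option β} (hφ : IsSub φ) : Ins i fun x => D (φ x) := by
  obtain ⟨w, -, -, h3⟩ := hφ
  refine fun x x' hx => h _ _ (funext fun j => ?_)
  simp only [ev, h3]
  cases w j with
  | inl b => rfl
  | inr e => exact congrFun hx e

theorem Ins.not {i : β} {D : (ι → Option β) → Prop} (h : Ins i D) : Ins i fun x => ¬ D x :=
  fun x x' hx hn hD => hn (h x' x hx.symm hD)

end Sub

/-- The density Hales-Jewett property of the alphabet `α`. -/
def DHJ (α : Type) : Prop :=
  ∀ δ : ℝ, 0 < δ → ∃ (ι : Type) (_ : Finite ι), ∀ A : (ι → α) → Prop,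
    δ ≤ (av fun x => ind (A x)) → HasLine A

end ECub.A
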