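import Pool.Agent.P.MP_029dcd_co.F.A.Dn

/-! The Graham-Rothschild theorem for combinatorial lines. -/

set_option autoImplicit false

namespace ECub.A

open Combinatorics

/-- A subspace on which the colour depends only on the positions of the variable. -/
theorem ins_all (α : Type) [Finite α] (n : Type) [Finite n] :
    ∀ (κ : Type) [Finite κ], ∃ (G : Type) (_ : Finite G), ∀ c : (G → Option α) → κ,
      ∃ ψ : (n → Option α) → G → Option α, IsSubP (· ≠ none) ψ ∧
        ∀ x x', (∀ j, x j = none ↔ x' j = none) → c (ψ x) = c (ψ x') := by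
  induction n using Finite.induction_empty_option with
  | @of_equiv n n' e ih =>
    intro κ _
    obtain ⟨G, _, h⟩ := ih κ
    refine ⟨G, inferInstance, fun c => ?_⟩
    obtain ⟨ψ, h1, h2⟩ := h c
    exact ⟨fun x => ψ fun j => x (e j), h1.comp (isSubP_surj _ e.surjective),
      fun x x' hx => h2 _ _ fun j => hx (e j)⟩
  | h_empty =>
    intro κ _
    exact ⟨PEmpty, inferInstance, fun c => ⟨fun x j => x j,
      isSubP_surj _ Function.surjective_id, fun x x' _ => congrArg c (Subsingleton.elim _ _)⟩⟩
  | @h_option n _ ih =>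
    intro κ _
    obtain ⟨G₀, _, h₀⟩ := ih (Option α → κ)
    obtain ⟨G₁, _, h₁⟩ := Line.exists_mono_in_high_dimension α ((G₀ → Option α) → κ)
    refine ⟨G₁ ⊕ G₀, inferInstance, fun c => ?_⟩
    obtain ⟨l, col, hl⟩ := h₁ fun v y => c (Sum.elim (fun j => some (v j)) y)
    obtain ⟨ψ, h1, h2⟩ := h₀ fun y b => c (Sum.elim (ev (fun j => (l.idxFun j).map some) b) y)
    refine ⟨_, IsSubP.cons (l := fun j => (l.idxFun j).map some)
      (l.proper.imp fun j hj => by rw [hj]; rfl) ?_ h1, fun x x' hx => ?_⟩
    · intro j a h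
      obtain ⟨b, -, rfl⟩ := Option.map_eq_some_iff.1 h
      exact Option.some_ne_none b
    have h3 : ∀ a, ev (fun j => (l.idxFun j).map some) (some a) = fun j => some (l a j) := by
      intro a
      funext j
      simp only [ev, Line.coe_apply]
      cases l.idxFun j <;> rfl
    refine (congrFun (h2 _ _ fun j => hx (some j)) (x none)).trans ?_
    cases h : x none with
    | none => rw [(hx none).1 h]
    | some a =>
      cases h' : x' none with
      | none => rw [(hx none).2 h'] at h; cases h
      | some a' =>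
        rw [h3, h3]
        exact (congrFun (hl a) _).trans (congrFun (hl a') _).symm

/-- Blocks such that the colour of a union depends only on the last block. -/
theorem last_block (κ : Type) [Finite κ] [Nonempty κ] (N : ℕ) :
    ∃ (n : Type) (_ : Finite n), ∀ χ : Set n → κ, ∃ (g : n → Option ℕ) (f : ℕ → κ),
      (∀ e < N, ∃ j, g j = some e) ∧ (∀ j e, g j = some e → e < N) ∧
      ∀ (s : Set ℕ) t, t ∈ s → (∀ r ∈ s, r ≤ t) → t < N →
        χ {j | ∃ e ∈ s, g j = some e} = f t := by
  classical
  induction N with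
  | zero =>
    exact ⟨PEmpty, inferInstance, fun χ => ⟨fun _ => none, fun _ => Classical.arbitrary κ,
      fun e he => absurd he (Nat.not_lt_zero e), fun j => j.elim,
      fun s t _ _ ht => absurd ht (Nat.not_lt_zero t)⟩⟩
  | succ N ih =>
    obtain ⟨n, _, h₀⟩ := ih
    obtain ⟨H, _, h₁⟩ := Line.exists_mono_in_high_dimension (Set n) κ
    refine ⟨Option (H × n), inferInstance, fun χ => ?_⟩
    obtain ⟨l, col, hl⟩ := h₁ fun w => χ {p | ∀ q, p = some q → q.2 ∈ w q.1}
    obtain ⟨g, f, g1, g2, g3⟩ := h₀ fun T => χ {p | ∃ q, p = some q ∧ l.idxFun q.1 = none ∧ q.2 ∈ T}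
    refine ⟨fun p => p.elim (some N) fun q =>
      (l.idxFun q.1).elim (g q.2) fun S => if q.2 ∈ S then some N else none,
      Function.update f N col, fun e he => ?_, ?_, fun s t ht hs htN => ?_⟩
    · rcases Nat.lt_succ_iff_lt_or_eq.1 he with he | rfl
      · obtain ⟨j, hj⟩ := g1 e he
        obtain ⟨i, hi⟩ := l.proper
        exact ⟨some (i, j), by simp [hi, hj]⟩
      · exact ⟨none, rfl⟩
    · rintro (_ | ⟨i, j⟩) e h
      · simp only [Option.elim_none, Option.some.injEq] at h
        omega
      · cases hi : l.idxFun i with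
        | none =>
          simp only [Option.elim_some, hi, Option.elim_none] at h
          exact (g2 j e h).trans (Nat.lt_succ_self N)
        | some S =>
          simp only [Option.elim_some, hi] at h
          split_ifs at h
          simp only [Option.some.injEq] at h
          omega
    · rcases Nat.lt_succ_iff_lt_or_eq.1 htN with htN | rfl
      · rw [Function.update_of_ne htN.ne, ← g3 s t ht hs htN]
        have hN : N ∉ s := fun h => absurd (hs N h) (not_le.2 htN)
        congr 1
        ext (_ | ⟨i, j⟩)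
        · simp [hN]
        · cases hi : l.idxFun i with
          | none => simp [hi]
          | some S => by_cases hj : j ∈ S <;> simp [hi, hj, hN]
      · rw [Function.update_self, ← hl {j | ∃ e ∈ s, g j = some e}]
        congr 1
        ext (_ | ⟨i, j⟩)
        · simp [ht]
        · cases hi : l.idxFun i with
          | none => simp [hi]
          | some S => by_cases hj : j ∈ S <;> simp [hi, hj, ht]

/-- The finite unions theorem. -/
theorem fin_union (κ : Type) [Finite κ] [Nonempty κ] (m : Type) [Finite m] :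
    ∃ (n : Type) (_ : Finite n), ∀ χ : Set n → κ, ∃ (g : n → Option m) (col : κ),
      (∀ e, ∃ j, g j = some e) ∧
      ∀ s : Set m, s.Nonempty → χ {j | ∃ e ∈ s, g j = some e} = col := by
  classical
  have := Fintype.ofFinite κ
  have := Fintype.ofFinite m
  obtain ⟨n, _, h⟩ := last_block κ (Fintype.card κ * Fintype.card m)
  refine ⟨n, inferInstance, fun χ => ?_⟩
  obtain ⟨g, f, g1, -, g3⟩ := h χ
  obtain ⟨col, -, hcol⟩ := Finset.exists_le_card_fiber_of_mul_le_card_of_maps_to
    (s := Finset.range (Fintype.card κ * Fintype.card m)) (t := Finset.univ) (f := f)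
    (n := Fintype.card m) (fun _ _ => Finset.mem_univ _) Finset.univ_nonempty (by simp)
  obtain ⟨σ, hσ⟩ := Function.Embedding.exists_of_card_le_finset hcol
  have hσ' : ∀ e, σ e < Fintype.card κ * Fintype.card m ∧ f (σ e) = col := fun e => by
    simpa using hσ ⟨e, rfl⟩
  have hg : ∀ j e, (g j).bind (Function.partialInv σ) = some e ↔ g j = some (σ e) := by
    intro j e
    cases g j with
    | none => simp
    | some t =>
      rw [Option.bind_some, σ.injective.isPartialInv, Option.some.injEq]
      exact eq_comm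
  refine ⟨fun j => (g j).bind (Function.partialInv σ), col,
    fun e => (g1 _ (hσ' e).1).imp fun j hj => (hg j e).2 hj, fun s hs => ?_⟩
  obtain ⟨e, he, hmax⟩ := Set.exists_max_image s σ (Set.toFinite s) hs
  rw [← (hσ' e).2, ← g3 (σ '' s) (σ e) ⟨e, he, rfl⟩ (by rintro _ ⟨r, hr, rfl⟩; exact hmax r hr)
    (hσ' e).1]
  congr 1
  ext j
  simp [hg]

/-- The Graham-Rothschild theorem for lines. -/
theorem gr (α : Type) [Finite α] [Nonempty α] (κ : Type) [Finite κ] [Nonempty κ] (m : Type)
    [Finite m] : ∃ (G : Type) (_ : Finite G), ∀ c : (G → Option α) → κ,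
      ∃ ψ : (m → Option α) → G → Option α, IsSubP (· ≠ none) ψ ∧
        ∃ col, ∀ x, (∃ j, x j = none) → c (ψ x) = col := by
  classical
  obtain ⟨n, _, h₀⟩ := fin_union κ m
  obtain ⟨G, _, h₁⟩ := ins_all α n κ
  refine ⟨G, inferInstance, fun c => ?_⟩
  obtain ⟨ψ, h1, h2⟩ := h₁ c
  obtain ⟨a₀⟩ := ‹Nonempty α›
  obtain ⟨g, col, g1, g2⟩ := h₀ fun S => c (ψ fun j => if j ∈ S then none else some a₀)
  have h3 : IsSubP (· ≠ none) fun (x : m → Option α) j => (g j).elim (some a₀) x := by
    refine ⟨fun j => (g j).elim (Sum.inl (some a₀)) Sum.inr, fun j a h => ?_,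
      fun e => (g1 e).imp fun j hj => by simp [hj], fun x j => by
        dsimp only
        cases g j <;> rfl⟩
    cases hj : g j with
    | none =>
      simp only [hj, Option.elim_none, Sum.inl.injEq] at h
      simp [← h]
    | some e => simp [hj] at h
  refine ⟨_, h1.comp h3, col, fun x hx => ?_⟩
  rw [← g2 {e | x e = none} hx]
  refine h2 _ _ fun j => ?_
  cases hj : g j <;> simp [hj]

end ECub.A
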