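import Mathlib

/-! Grids in dense subsets of the plane over `ZMod p`, from the density Hales-Jewett theorem. -/

set_option autoImplicit false

namespace ECub.A

open Finset

namespace G

variable {p m n : ℕ}

/-- the point of the plane attached to a word -/
def pt (ω : ZMod p × ZMod p × (Fin n → ZMod p)) (w : Fin n → Fin (m + 1) × Fin (m + 1)) :
    ZMod p × ZMod p :=
  (ω.1 + ∑ j, (((w j).1 : ℕ) : ZMod p) * ω.2.2 j, ω.2.1 + ∑ j, (((w j).2 : ℕ) : ZMod p) * ω.2.2 j)

/-- the step of the grid attached to a line -/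
def stp (f : Fin n → Option (Fin (m + 1) × Fin (m + 1))) (r : Fin n → ZMod p) : ZMod p :=
  ∑ j, if f j = none then r j else 0

lemma pt_line (ω : ZMod p × ZMod p × (Fin n → ZMod p))
    (f : Fin n → Option (Fin (m + 1) × Fin (m + 1))) (a : Fin (m + 1) × Fin (m + 1)) :
    pt ω (fun j => (f j).getD a) =
      ((pt ω (fun j => (f j).getD (0, 0))).1 + ((a.1 : ℕ) : ZMod p) * stp f ω.2.2,
        (pt ω (fun j => (f j).getD (0, 0))).2 + ((a.2 : ℕ) : ZMod p) * stp f ω.2.2) := by
  unfold pt stp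
  simp only [Prod.mk.injEq, add_assoc, add_right_inj, Finset.mul_sum, ← Finset.sum_add_distrib]
  constructor
  · refine Finset.sum_congr rfl fun j _ => ?_
    rcases h : f j with _ | b <;> simp
  · refine Finset.sum_congr rfl fun j _ => ?_
    rcases h : f j with _ | b <;> simp

open Classical in
lemma card_pt [Fact p.Prime] (B : Finset (ZMod p × ZMod p))
    (w : Fin n → Fin (m + 1) × Fin (m + 1)) :
    (univ.filter fun ω : ZMod p × ZMod p × (Fin n → ZMod p) => pt ω w ∈ B).card
      = B.card * p ^ n := by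
  have : (B ×ˢ (univ : Finset (Fin n → ZMod p))).card = B.card * p ^ n := by
    simp [Finset.card_product, ZMod.card]
  rw [← this]
  refine Finset.card_nbij' (fun ω => (pt ω w, ω.2.2))
    (fun z => (z.1.1 - ∑ j, (((w j).1 : ℕ) : ZMod p) * z.2 j,
      z.1.2 - ∑ j, (((w j).2 : ℕ) : ZMod p) * z.2 j, z.2)) ?_ ?_ ?_ ?_
  · intro ω hω
    simpa using hω
  · intro z hz
    have hz' : z.1 ∈ B := by simpa using hz
    simpa [pt] using hz'
  · intro ω _
    simp [pt]
  · intro z _
    simp [pt]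

open Classical in
lemma card_line [Fact p.Prime] (B : Finset (ZMod p × ZMod p))
    (f : Fin n → Option (Fin (m + 1) × Fin (m + 1))) (j0 : Fin n) (hj0 : f j0 = none) :
    (univ.filter fun ω : ZMod p × ZMod p × (Fin n → ZMod p) =>
        ∀ a, pt ω (fun j => (f j).getD a) ∈ B).card * p
      ≤ ((univ.filter fun x : ZMod p × ZMod p × ZMod p => x.2.2 ≠ 0 ∧
        ∀ i j : ℕ, i < m → j < m → (x.1 + i * x.2.2, x.2.1 + j * x.2.2) ∈ B).card + p ^ 2)
        * p ^ n := by
  set Gr := (univ.filter fun x : ZMod p × ZMod p × ZMod p => x.2.2 ≠ 0 ∧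
        ∀ i j : ℕ, i < m → j < m → (x.1 + i * x.2.2, x.2.1 + j * x.2.2) ∈ B) with hGr
  set Z := (univ.filter fun x : ZMod p × ZMod p × ZMod p => x.2.2 = 0) with hZ
  set R := (univ.filter fun r : Fin n → ZMod p => r j0 = 0) with hR
  have hZc : Z.card ≤ p ^ 2 := by
    have : Z.card ≤ (univ : Finset (ZMod p × ZMod p)).card := by
      refine Finset.card_le_card_of_injOn (fun x => (x.1, x.2.1)) (by simp) ?_
      intro x hx y hy hxy
      have hx' : x.2.2 = 0 := by simpa [hZ] using hx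
      have hy' : y.2.2 = 0 := by simpa [hZ] using hy
      simp only [Prod.mk.injEq] at hxy
      exact Prod.ext hxy.1 (Prod.ext hxy.2 (hx'.trans hy'.symm))
    simpa [ZMod.card, sq] using this
  have hRc : R.card * p ≤ p ^ n := by
    have : (R ×ˢ (univ : Finset (ZMod p))).card ≤ (univ : Finset (Fin n → ZMod p)).card := by
      refine Finset.card_le_card_of_injOn (fun z => Function.update z.1 j0 z.2) (by simp) ?_
      intro x hx y hy hxy
      have hx' : x.1 j0 = 0 := by simpa [hR] using hx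
      have hy' : y.1 j0 = 0 := by simpa [hR] using hy
      have h2 : x.2 = y.2 := by simpa using congrFun hxy j0
      refine Prod.ext (funext fun j => ?_) h2
      by_cases hj : j = j0
      · rw [hj, hx', hy']
      · simpa [Function.update_of_ne hj] using congrFun hxy j
    simpa [Finset.card_product, ZMod.card] using this
  have hmain : (univ.filter fun ω : ZMod p × ZMod p × (Fin n → ZMod p) =>
        ∀ a, pt ω (fun j => (f j).getD a) ∈ B).card ≤ ((Gr ∪ Z) ×ˢ R).card := by
    refine Finset.card_le_card_of_injOn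
      (fun ω => (((pt ω (fun j => (f j).getD (0, 0))).1, (pt ω (fun j => (f j).getD (0, 0))).2,
        stp f ω.2.2), Function.update ω.2.2 j0 0)) ?_ ?_
    · intro ω hω
      have hω' : ∀ a, pt ω (fun j => (f j).getD a) ∈ B := by simpa using hω
      simp only [coe_product, Set.mem_prod, mem_coe, mem_union]
      refine ⟨?_, by simp [hR]⟩
      by_cases he : stp f ω.2.2 = 0
      · right; simpa [hZ] using he
      · left
        simp only [hGr, mem_filter, mem_univ, true_and]
        refine ⟨he, fun i j hi hj => ?_⟩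
        have := hω' (⟨i, by omega⟩, ⟨j, by omega⟩)
        rw [pt_line] at this
        exact this
    · intro ω _ ω' _ h
      simp only [Prod.mk.injEq] at h
      obtain ⟨⟨h1, h2, h3⟩, h4⟩ := h
      have hne : ∀ j, j ≠ j0 → ω.2.2 j = ω'.2.2 j := fun j hj => by
        simpa [Function.update_of_ne hj] using congrFun h4 j
      have h0 : ω.2.2 j0 = ω'.2.2 j0 := by
        unfold stp at h3
        rw [← Finset.add_sum_erase _ _ (mem_univ j0), ← Finset.add_sum_erase _ _ (mem_univ j0),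
          if_pos hj0, if_pos hj0] at h3
        have : ∑ j ∈ univ.erase j0, (if f j = none then ω.2.2 j else 0)
            = ∑ j ∈ univ.erase j0, (if f j = none then ω'.2.2 j else 0) :=
          Finset.sum_congr rfl fun j hj => by rw [hne j (ne_of_mem_erase hj)]
        rw [this] at h3
        exact add_right_cancel h3
      have hr : ω.2.2 = ω'.2.2 := funext fun j => by
        by_cases hj : j = j0
        · rw [hj, h0]
        · exact hne j hj
      unfold pt at h1 h2
      simp only [hr, add_left_inj] at h1 h2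
      exact Prod.ext h1 (Prod.ext h2 hr)
  rw [Finset.card_product] at hmain
  have hU : (Gr ∪ Z).card ≤ Gr.card + p ^ 2 := (card_union_le _ _).trans (by omega)
  calc _ ≤ (Gr ∪ Z).card * R.card * p := Nat.mul_le_mul_right _ hmain
    _ = (Gr ∪ Z).card * (R.card * p) := by ring
    _ ≤ (Gr.card + p ^ 2) * p ^ n := Nat.mul_le_mul hU hRc

end G

open Classical in
theorem grid_of_dhj
    (H : ∀ (α : Type) [Fintype α] [Nonempty α] (δ : ℝ), 0 < δ →
      ∃ n0 : ℕ, ∀ n, n0 ≤ n → ∀ A : Finset (Fin n → α),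
        δ * (Fintype.card α : ℝ) ^ n ≤ A.card →
        ∃ l : Combinatorics.Line α (Fin n), ∀ a, l a ∈ A)
    (m : ℕ) (δ : ℝ) (hδ : 0 < δ) :
    ∃ c : ℝ, 0 < c ∧ ∃ p0 : ℕ, ∀ (p : ℕ) [Fact p.Prime], p0 ≤ p →
      ∀ B : Finset (ZMod p × ZMod p), δ * (p : ℝ) ^ 2 ≤ B.card →
      c * (p : ℝ) ^ 3 ≤ ((univ.filter fun x : ZMod p × ZMod p × ZMod p => x.2.2 ≠ 0 ∧
        ∀ i j : ℕ, i < m → j < m → (x.1 + i * x.2.2, x.2.1 + j * x.2.2) ∈ B).card : ℝ) := by
  obtain ⟨n, hn⟩ := H (Fin (m + 1) × Fin (m + 1)) (δ / 2) (by positivity)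
  have hn := hn n le_rfl
  set K : ℕ := Fintype.card (Fin n → Option (Fin (m + 1) × Fin (m + 1))) with hK
  have hK0 : 0 < K := Fintype.card_pos
  have hK0' : (0 : ℝ) < K := by exact_mod_cast hK0
  refine ⟨δ / (4 * K), by positivity, ⌈4 * K / δ⌉₊, fun p _ hp B hB => ?_⟩
  have hp0 : (0 : ℝ) < p := by exact_mod_cast (Fact.out : p.Prime).pos
  have hp1 : 4 * K / δ ≤ p := (Nat.le_ceil _).trans (by exact_mod_cast hp)
  set Gr := (univ.filter fun x : ZMod p × ZMod p × ZMod p => x.2.2 ≠ 0 ∧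
        ∀ i j : ℕ, i < m → j < m → (x.1 + i * x.2.2, x.2.1 + j * x.2.2) ∈ B) with hGr
  set N : ℝ := (Fintype.card (Fin (m + 1) × Fin (m + 1)) : ℝ) ^ n with hN
  have hN0 : 0 < N := by
    have : 0 < Fintype.card (Fin (m + 1) × Fin (m + 1)) := Fintype.card_pos
    positivity
  set A : ZMod p × ZMod p × (Fin n → ZMod p) → Finset (Fin n → Fin (m + 1) × Fin (m + 1)) :=
    fun ω => univ.filter fun w => G.pt ω w ∈ B with hA
  have hAle : ∀ ω, ((A ω).card : ℝ) ≤ N := fun ω => by
    have : (A ω).card ≤ Fintype.card (Fin n → Fin (m + 1) × Fin (m + 1)) := card_le_univ _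
    rw [Fintype.card_fun, Fintype.card_fin] at this
    rw [hN]; exact_mod_cast this
  have hsum : ∑ ω, ((A ω).card : ℝ) = N * (B.card * (p : ℝ) ^ n) := by
    have h1 : ∑ ω, (A ω).card = ∑ w : Fin n → Fin (m + 1) × Fin (m + 1),
        (univ.filter fun ω : ZMod p × ZMod p × (Fin n → ZMod p) => G.pt ω w ∈ B).card := by
      simp only [hA, card_filter]
      exact Finset.sum_comm
    have h2 : ∑ ω, (A ω).card
        = (Fintype.card (Fin (m + 1) × Fin (m + 1))) ^ n * (B.card * p ^ n) := by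
      rw [h1, Finset.sum_congr rfl fun w _ => G.card_pt B w, sum_const, card_univ,
        Fintype.card_fun, Fintype.card_fin, smul_eq_mul]
    rw [hN]; exact_mod_cast h2
  set Gd := univ.filter fun ω => δ / 2 * N ≤ ((A ω).card : ℝ) with hGd
  have hΩ : (Fintype.card (ZMod p × ZMod p × (Fin n → ZMod p)) : ℝ) = (p : ℝ) ^ 2 * p ^ n := by
    simp [ZMod.card]; ring
  have hGd1 : δ / 2 * ((p : ℝ) ^ 2 * p ^ n) ≤ Gd.card := by
    have h1 : ∑ ω, ((A ω).card : ℝ) ≤ ∑ ω, ((if ω ∈ Gd then N else 0) + δ / 2 * N) := by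
      refine Finset.sum_le_sum fun ω _ => ?_
      by_cases h : ω ∈ Gd
      · rw [if_pos h]; have := hAle ω; have : 0 ≤ δ / 2 * N := by positivity
        linarith
      · rw [if_neg h]
        have : ¬ (δ / 2 * N ≤ ((A ω).card : ℝ)) := by simpa [hGd] using h
        linarith [not_le.mp this]
    rw [hsum, sum_add_distrib, Finset.sum_ite_mem, univ_inter, sum_const, sum_const, card_univ,
      nsmul_eq_mul, nsmul_eq_mul, hΩ] at h1
    have h2 : N * (δ * (p : ℝ) ^ 2 * p ^ n) ≤ N * (B.card * (p : ℝ) ^ n) := by gcongr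
    have h3 : N * (δ / 2 * ((p : ℝ) ^ 2 * p ^ n)) ≤ N * Gd.card := by nlinarith
    exact le_of_mul_le_mul_left h3 hN0
  set F := univ.filter fun f : Fin n → Option (Fin (m + 1) × Fin (m + 1)) => ∃ j, f j = none
    with hF
  have hsub : Gd ⊆ F.biUnion fun f => univ.filter fun ω : ZMod p × ZMod p × (Fin n → ZMod p) =>
      ∀ a, G.pt ω (fun j => (f j).getD a) ∈ B := by
    intro ω hω
    have hω' : δ / 2 * N ≤ ((A ω).card : ℝ) := by simpa [hGd] using hω
    obtain ⟨l, hl⟩ := hn (A ω) hω'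
    refine mem_biUnion.2 ⟨l.idxFun, by simpa [hF] using l.proper, ?_⟩
    simp only [mem_filter, mem_univ, true_and]
    intro a
    have := hl a
    simp only [hA, mem_filter, mem_univ, true_and] at this
    exact this
  have hGd2 : Gd.card * p ≤ K * ((Gr.card + p ^ 2) * p ^ n) := by
    have h1 := (card_le_card hsub).trans card_biUnion_le
    calc Gd.card * p ≤ (∑ f ∈ F, (univ.filter fun ω : ZMod p × ZMod p × (Fin n → ZMod p) =>
          ∀ a, G.pt ω (fun j => (f j).getD a) ∈ B).card) * p := Nat.mul_le_mul_right _ h1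
      _ = ∑ f ∈ F, (univ.filter fun ω : ZMod p × ZMod p × (Fin n → ZMod p) =>
          ∀ a, G.pt ω (fun j => (f j).getD a) ∈ B).card * p := Finset.sum_mul _ _ _
      _ ≤ ∑ _f ∈ F, (Gr.card + p ^ 2) * p ^ n := by
          refine Finset.sum_le_sum fun f hf => ?_
          obtain ⟨j0, hj0⟩ : ∃ j, f j = none := by simpa [hF] using hf
          exact G.card_line B f j0 hj0
      _ = F.card * ((Gr.card + p ^ 2) * p ^ n) := by rw [sum_const, smul_eq_mul]
      _ ≤ K * ((Gr.card + p ^ 2) * p ^ n) := Nat.mul_le_mul_right _ (card_le_univ _)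
  have hGd3 : (Gd.card : ℝ) * p ≤ K * ((Gr.card + (p : ℝ) ^ 2) * (p : ℝ) ^ n) := by
    exact_mod_cast hGd2
  have hpn : (0 : ℝ) < (p : ℝ) ^ n := by positivity
  have h4 : δ / 2 * (p : ℝ) ^ 3 ≤ K * (Gr.card + (p : ℝ) ^ 2) := by
    have : (δ / 2 * (p : ℝ) ^ 3) * (p : ℝ) ^ n ≤ (K * (Gr.card + (p : ℝ) ^ 2)) * (p : ℝ) ^ n := by
      have := mul_le_mul_of_nonneg_right hGd1 hp0.le
      nlinarith
    exact le_of_mul_le_mul_right this hpn
  have h5 : (K : ℝ) * (p : ℝ) ^ 2 ≤ δ / 4 * (p : ℝ) ^ 3 := by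
    have : 4 * (K : ℝ) ≤ p * δ := (div_le_iff₀ hδ).1 hp1
    have h2 : (0 : ℝ) < (p : ℝ) ^ 2 := by positivity
    nlinarith
  have h6 : δ / 4 * (p : ℝ) ^ 3 ≤ K * Gr.card := by nlinarith
  rw [div_mul_eq_mul_div, div_le_iff₀ (by positivity)]
  nlinarith

end ECub.A
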